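import Pool.Agent.L5helper53.DF.Final

/-!
# Non-forking formulas need not extend to definable types in dp-minimal theories

The theory is that of the finite binary strings, with relation symbols which compare the lengths of
the strings and the lengths of the longest initial segments on which sums (over the field with two
elements) of strings vanish; `M` is the structure of the finite binary strings itself, the formula
`φ(x, y; b)` says that `x` and `y` have the same length, that this is larger than the length of `b`,
and that the first entries of `x` and `y` differ, and `b` is longer than all the elements of `M`.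
-/

namespace Pool.Agent.Results.MP_510d92_lc.NonforkingNotDefinable

open FirstOrder FirstOrder.Language SKF EXA Pool.Agent.L5helper53.DF

/-- There are a complete dp-minimal theory `T` in a countable language, a countable model `M` of `T`
and a formula `φ(x₀, x₁; y)` such that in each monster model `U` of `T` and for each elementary
embedding `i` of `M` in `U` there is an element `b` of `U` such that `φ(x₀, x₁; b)` does not fork
over `i(M)` but belongs to no global `i(M)`-definable type. -/
theorem result : ∃ (L : FirstOrder.Language.{0, 0}) (T : L.Theory) (M : Type) (_ : L.Structure M)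
    (φ : L.Formula (Fin 2 ⊕ Fin 1)),
    Countable L.Symbols ∧ Countable M ∧ T.IsComplete ∧ IsDpMinimal T ∧ M ⊨ T ∧
    (∃ (κ : Cardinal.{0}) (U : Type) (_ : L.Structure U), IsMonster T κ U ∧
      Nonempty (M ↪ₑ[L] U)) ∧
    ∀ (κ : Cardinal.{0}) (U : Type) [L.Structure U], IsMonster T κ U → ∀ i : M ↪ₑ[L] U,
      ∃ b : Fin 1 → U, ¬ Forks (Set.range i) (⟨1, φ, b⟩ : Fml L 2 U) ∧
        ∀ p : Set (Fml L 2 U), IsTypeOver Set.univ p → IsDefinableOver (Set.range i) p →
          (⟨1, φ, b⟩ : Fml L 2 U) ∉ p :=
  Pool.Agent.L5helper53.DF.main

end Pool.Agent.Results.MP_510d92_lc.NonforkingNotDefinable
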